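import Pool.Agent.H21.BS.TB

/-!
# Row OM4 of bes_modules: duality
-/

set_option autoImplicit false

open Finset Pool.Agent.H6.N4D Pool.Agent.H21.BS

namespace Pool.Agent.H46.BES.OM4

/-- the mean of the centred divisibility function -/
theorem sum_DD (hCNT : T_CNT) (q a N : ℕ) (hq : 1 ≤ q) (hqN : q ≤ N) :
    ∑ x ∈ range N, ‖DD q (a + x)‖ ≤ 3 * N := by
  have hq0 : (0 : ℝ) < q := by exact_mod_cast hq
  have h1 : ∀ x, ‖DD q (a + x)‖ ≤ (if q ∣ a + x then (q : ℝ) else 0) + 1 := by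
    intro x
    unfold DD
    refine (norm_sub_le _ _).trans ?_
    rw [norm_one]
    split_ifs
    · rw [Complex.norm_natCast]
    · rw [norm_zero]
  have h2 : ∑ x ∈ range N, (if q ∣ a + x then (q : ℝ) else 0) ≤ 2 * N := by
    rw [← Finset.sum_filter, Finset.sum_const, nsmul_eq_mul]
    have h3 := hCNT N q ((range N).filter fun x => q ∣ a + x) hq (Finset.filter_subset _ _) (by
      intro x hx y hy
      have hx' : (q : ℤ) ∣ ((a + x : ℕ) : ℤ) := by exact_mod_cast (Finset.mem_filter.mp hx).2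
      have hy' : (q : ℤ) ∣ ((a + y : ℕ) : ℤ) := by exact_mod_cast (Finset.mem_filter.mp hy).2
      have h4 := dvd_sub hx' hy'
      push_cast at h4
      have h5 : (a : ℤ) + x - (a + y) = x - y := by ring
      rwa [h5] at h4)
    have h4 : (((range N).filter fun x => q ∣ a + x).card : ℝ) * q ≤ ((N : ℝ) / q + 1) * q :=
      mul_le_mul_of_nonneg_right h3 hq0.le
    have h5 : ((N : ℝ) / q + 1) * q = N + q := by field_simp
    have h6 : (q : ℝ) ≤ N := by exact_mod_cast hqN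
    linarith
  calc ∑ x ∈ range N, ‖DD q (a + x)‖
      ≤ ∑ x ∈ range N, ((if q ∣ a + x then (q : ℝ) else 0) + 1) :=
        Finset.sum_le_sum fun x _ => h1 x
    _ = ∑ x ∈ range N, (if q ∣ a + x then (q : ℝ) else 0) + N := by
        rw [Finset.sum_add_distrib]; simp
    _ ≤ 3 * N := by linarith

theorem norm_u (V : Cell) (q n : ℕ) (hg : ‖V.g q n‖ ≤ 1) : ‖V.u q n‖ ≤ ‖DD q n‖ := by
  unfold Cell.u
  rw [norm_mul, norm_mul]
  have h1 : ‖ee (V.α q * n)‖ = 1 := norm_ee _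
  rw [h1, mul_one]
  exact mul_le_of_le_one_right (norm_nonneg _) hg

theorem norm_av (hCNT : T_CNT) (V : Cell) (W : ℝ) (P : ℕ) (κ : ℝ) (hV : V.Ok W P κ)
    (hN : 0 < V.N) (f : ℕ → ℂ) (hf : ∀ n, ‖f n‖ ≤ 1) (q : ℕ) (hq : q ∈ V.Q) :
    ‖av V.a V.N fun n => f n * starRingEnd ℂ (V.u q n)‖ ≤ 3 := by
  have hN0 : (0 : ℝ) < V.N := by exact_mod_cast hN
  unfold av
  rw [norm_div, Complex.norm_natCast, div_le_iff₀ hN0]
  refine (norm_sum_le _ _).trans ?_
  have hq1 : 1 ≤ q := (hV.pr q hq).one_lt.le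
  have hqN : q ≤ V.N := (Nat.le_self_pow (by norm_num) q).trans (hV.up q hq)
  refine le_trans (Finset.sum_le_sum fun x _ => ?_) (sum_DD hCNT q V.a V.N hq1 hqN)
  rw [norm_mul, RCLike.norm_conj]
  calc ‖f (V.a + x)‖ * ‖V.u q (V.a + x)‖ ≤ 1 * ‖DD q (V.a + x)‖ :=
        mul_le_mul (hf _) (norm_u V q _ ((hV.bv q hq).1 _)) (norm_nonneg _) zero_le_one
    _ = ‖DD q (V.a + x)‖ := one_mul _

/-- duality on one window -/
theorem dual (V : Cell) (f : ℕ → ℂ) (hN : 0 < V.N)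
    (hc : ∀ q ∈ V.Q, V.c q = av V.a V.N fun n => f n * starRingEnd ℂ (V.u q n)) :
    ∑ x ∈ range V.N, f (V.a + x) * starRingEnd ℂ (V.om (V.a + x)) =
      (((V.N : ℝ) * ∑ q ∈ V.Q, 1 / (q : ℝ) * ‖V.c q‖ ^ 2 : ℝ) : ℂ) := by
  have hN0 : (V.N : ℂ) ≠ 0 := by exact_mod_cast hN.ne'
  have h1 : ∀ q ∈ V.Q, ∑ x ∈ range V.N, f (V.a + x) * starRingEnd ℂ (V.u q (V.a + x)) =
      V.N * V.c q := by
    intro q hq
    rw [hc q hq]
    unfold av
    field_simp
  have h2 : ∀ x, f (V.a + x) * starRingEnd ℂ (V.om (V.a + x)) =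
      ∑ q ∈ V.Q, 1 / (q : ℂ) * starRingEnd ℂ (V.c q) *
        (f (V.a + x) * starRingEnd ℂ (V.u q (V.a + x))) := by
    intro x
    unfold Cell.om
    rw [map_sum, Finset.mul_sum]
    refine Finset.sum_congr rfl fun q _ => ?_
    rw [map_mul, map_mul, map_div₀, map_one, Complex.conj_natCast]
    ring
  simp only [h2]
  rw [Finset.sum_comm]
  push_cast
  rw [Finset.mul_sum]
  refine Finset.sum_congr rfl fun q hq => ?_
  rw [← Finset.mul_sum, h1 q hq]
  have h3 : starRingEnd ℂ (V.c q) * V.c q = ((‖V.c q‖ : ℂ)) ^ 2 := Complex.conj_mul' _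
  linear_combination (1 / (q : ℂ)) * V.N * h3

theorem main (hLVL : T_LVL) (hCNT : T_CNT) : T_OM4 := by
  intro W S f hS hf
  obtain ⟨hA, -, -, -, hE⟩ := hLVL S W hS
  refine ⟨?_, ?_⟩
  · intro i k q
    unfold Sys.cf
    split_ifs with h
    · obtain ⟨h1, h2, h3, h4⟩ := h
      exact norm_av hCNT (S.V i k 0) W _ _ (hS.ok i h1 h2 k h3) (hA i h2).1 f hf q h4
    · rw [norm_zero]
      norm_num
  · intro i h1 h2
    have hcf : ∀ k ∈ range (S.cnt i), ∀ q ∈ S.Q i, S.cf f i k q =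
        av (S.U + k * S.N i) (S.N i) fun n => f n * starRingEnd ℂ ((S.V i k 0).u q n) := by
      intro k hk q hq
      unfold Sys.cf
      rw [if_pos ⟨h1, h2, Finset.mem_range.mp hk, hq⟩]
    have hZ : ∑ k ∈ range (S.cnt i), ∑ q ∈ S.Q i, 1 / (q : ℝ) * ‖S.cf f i k q‖ ^ 2 =
        ∑ k ∈ range (S.cnt i), ∑ q ∈ S.Q i, 1 / (q : ℝ) * S.Z f i k q ^ 2 := by
      refine Finset.sum_congr rfl fun k hk => Finset.sum_congr rfl fun q hq => ?_
      rw [hcf k hk q hq]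
      rfl
    refine ⟨hZ, ?_⟩
    obtain ⟨hN, -, -, hL, hsum⟩ := hA i h2
    have hL0 : (S.L : ℂ) ≠ 0 := by exact_mod_cast hL.ne'
    rw [← hZ]
    unfold av
    rw [hsum (fun n => f n * starRingEnd ℂ (S.Om (S.cf f) i n)), div_eq_iff hL0]
    have hk : ∀ k ∈ range (S.cnt i), ∑ x ∈ range (S.N i), f (S.U + k * S.N i + x) *
        starRingEnd ℂ (S.Om (S.cf f) i (S.U + k * S.N i + x)) =
        (((S.N i : ℝ) * ∑ q ∈ S.Q i, 1 / (q : ℝ) * ‖S.cf f i k q‖ ^ 2 : ℝ) : ℂ) := by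
      intro k hk
      have e := dual (S.V i k (S.cf f i k)) f hN (hcf k hk)
      refine Eq.trans ?_ e
      refine Finset.sum_congr rfl fun x hx => ?_
      rw [hE (S.cf f) i k x h2 (Finset.mem_range.mp hk) (Finset.mem_range.mp hx)]
      rfl
    rw [Finset.sum_congr rfl hk]
    push_cast
    rw [← Finset.mul_sum]
    field_simp

end Pool.Agent.H46.BES.OM4

namespace Pool.Agent.H46.BES

theorem pf_OM4 (hLVL : T_LVL) (hCNT : T_CNT) : T_OM4 := OM4.main hLVL hCNT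

end Pool.Agent.H46.BES
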