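import Pool.Agent.H3.BES.Targets

/-!
# Row INJ of clu_modules: the frequencies of two common neighbours differ
-/

set_option autoImplicit false

namespace Pool.Agent.H46.BES

open Finset Pool.Agent.H3.BES

theorem clu_INJ : T_INJ := by
  rintro al eta x R q r hq hr hqr hqR hrR heta ⟨a, ha, ha'⟩ ⟨b, hb, hb'⟩ he
  have hq0 : (0 : ℝ) < q := by exact_mod_cast hq.pos
  have hr0 : (0 : ℝ) < r := by exact_mod_cast hr.pos
  have hqR' : (q : ℝ) ≤ R := by exact_mod_cast hqR
  have hrR' : (r : ℝ) ≤ R := by exact_mod_cast hrR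
  have heta0 : 0 ≤ eta := (abs_nonneg _).trans ha'
  have h1 : |(a : ℝ) / q - (b : ℝ) / r| ≤ 2 * eta := by
    have e : (a : ℝ) / q - (b : ℝ) / r =
        (al r - x - (b : ℝ) / r) - (al q - x - (a : ℝ) / q) := by rw [he]; ring
    rw [e]
    have := abs_sub (al r - x - (b : ℝ) / r) (al q - x - (a : ℝ) / q)
    linarith
  have h2 : |((a * r - b * q : ℤ) : ℝ)| < 1 := by
    have e : ((a * r - b * q : ℤ) : ℝ) = ((a : ℝ) / q - (b : ℝ) / r) * (q * r) := by
      push_cast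
      field_simp
    rw [e, abs_mul, abs_of_pos (mul_pos hq0 hr0)]
    have e1 : (q : ℝ) * r ≤ (R : ℝ) ^ 2 := by
      rw [sq]
      exact mul_le_mul hqR' hrR' hr0.le (hq0.le.trans hqR')
    calc |(a : ℝ) / q - (b : ℝ) / r| * (q * r) ≤ (2 * eta) * (R : ℝ) ^ 2 :=
          mul_le_mul h1 e1 (mul_pos hq0 hr0).le (by positivity)
      _ < 1 := heta
  have h3 : a * (r : ℤ) - b * (q : ℤ) = 0 := by
    have : |a * (r : ℤ) - b * (q : ℤ)| < 1 := by exact_mod_cast h2
    exact Int.abs_lt_one_iff.mp this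
  have h4 : (q : ℤ) ∣ a * r := ⟨b, by linarith⟩
  have hp : Prime (q : ℤ) := Nat.prime_iff_prime_int.mp hq
  rcases hp.dvd_or_dvd h4 with h5 | h5
  · exact ha h5
  · exact hqr ((Nat.prime_dvd_prime_iff_eq hq hr).mp (by exact_mod_cast h5))

end Pool.Agent.H46.BES
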